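import Pool.Agent.MP_3ce0a0_al.H79.XS
import Pool.Agent.MP_3ce0a0_al.H79.XB
import Pool.Agent.MP_3ce0a0_al.H79.XG

/-
The fixed subgraph of the total sign change.
-/

namespace Pool.Agent.MP_3ce0a0_al.H99

open Equiv Module Finset Pool.Agent.MP_3ce0a0_al.H62.Inst Pool.Agent.MP_3ce0a0_al.H79.X

section lin
variable {H : Type} [AddCommGroup H] [Module ℂ H] {Z Φ : Submodule ℂ H}

/-- two maps agree on `Z` modulo `Φ`. -/
def Md (Z Φ : Submodule ℂ H) (f g : End ℂ H) : Prop := ∀ v ∈ Z, f v - g v ∈ Φ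

lemma Md.mul {f g f' g' : End ℂ H} (h : Md Z Φ f g) (k : Md Z Φ f' g') (hf : Keeps f Φ)
    (hg : Keeps g' Z) : Md Z Φ (f * f') (g * g') := fun v hv => by
  have e : (f * f') v - (g * g') v = f (f' v - g' v) + (f (g' v) - g (g' v)) := by
    simp only [Module.End.mul_apply, map_sub]
    abel
  rw [e]
  exact Φ.add_mem (hf _ (k v hv)) (h _ (hg v hv))

lemma md_prod (l : List (End ℂ H)) (h : ∀ f ∈ l, Keeps f Z ∧ ∀ v ∈ Z, f v - v ∈ Φ) :
    Keeps l.prod Z ∧ ∀ v ∈ Z, l.prod v - v ∈ Φ := by
  induction l with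
  | nil => exact ⟨fun v hv => by simpa using hv, fun v _ => by simp⟩
  | cons f l ih =>
    obtain ⟨i1, i2⟩ := ih fun g hg => h g (List.mem_cons_of_mem _ hg)
    obtain ⟨f1, f2⟩ := h f List.mem_cons_self
    refine ⟨fun v hv => ?_, fun v hv => ?_⟩
    · rw [List.prod_cons, Module.End.mul_apply]
      exact f1 _ (i1 v hv)
    · have e : (f :: l).prod v - v = (f (l.prod v) - l.prod v) + (l.prod v - v) := by
        rw [List.prod_cons, Module.End.mul_apply]
        abel
      rw [e]
      exact Φ.add_mem (f2 _ (i1 v hv)) (i2 v hv)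

/-- even permutations act trivially when all star transpositions act as one involution. -/
lemma md_even {κ : Type} [Fintype κ] [DecidableEq κ] (c : Perm (Option κ) →* End ℂ H)
    (z : End ℂ H) (hz : z * z = 1) (hzZ : Keeps z Z) (hc : ∀ τ, Keeps (c τ) Φ)
    (h : ∀ a, Md Z Φ (c (swap none (some a))) z) (τ : Perm (Option κ)) :
    (Perm.sign τ = 1 → Md Z Φ (c τ) 1) ∧ (Perm.sign τ = -1 → Md Z Φ (c τ) z) := by
  have sw : ∀ x y : Option κ, x ≠ y → Md Z Φ (c (swap x y)) z := by
    intro x y hxy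
    rcases x with _ | a <;> rcases y with _ | b
    · exact absurd rfl hxy
    · exact h b
    · rw [swap_comm]; exact h a
    · have e : swap (some a) (some b) =
          swap none (some a) * swap none (some b) * swap none (some a) := by
        have k := swap_mul_swap_mul_swap (x := some b) (y := none) (z := some a) (by simp)
          (Ne.symm hxy)
        rw [swap_comm (some b) none] at k
        exact k.symm
      have m := ((h a).mul (h b) (hc _) hzZ).mul (h a) (by rw [← map_mul]; exact hc _) hzZ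
      rw [← map_mul, ← map_mul, ← e, hz, one_mul] at m
      exact m
  induction τ using Perm.swap_induction_on with
  | one => exact ⟨fun _ v _ => by simp, fun e => absurd e (by simp)⟩
  | swap_mul f x y hxy ih =>
    rw [Perm.sign_mul, Perm.sign_swap hxy, map_mul]
    refine ⟨fun e => ?_, fun e => ?_⟩
    · have e' : Perm.sign f = -1 := by
        rcases Int.units_eq_one_or (Perm.sign f) with k | k
        · rw [k] at e; exact absurd e (by decide)
        · exact k
      have m := (sw x y hxy).mul (ih.2 e') (hc _) hzZ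
      rwa [hz] at m
    · have e' : Perm.sign f = 1 := by
        rcases Int.units_eq_one_or (Perm.sign f) with k | k
        · exact k
        · rw [k] at e; exact absurd e (by decide)
      have m := (sw x y hxy).mul (ih.1 e') (hc _) (fun v hv => hv)
      rwa [mul_one] at m

end lin

lemma sign_of_cube {κ : Type} [Fintype κ] [DecidableEq κ] {σ : Perm κ} (h : σ ^ 3 = 1) :
    Perm.sign σ = 1 := by
  have e := congrArg Perm.sign h
  rw [map_pow, map_one] at e
  rcases Int.units_eq_one_or (Perm.sign σ) with k | k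
  · exact k
  · rw [k] at e; exact absurd e (by decide)

section geo
variable {O H : Type} [Group O] [AddCommGroup H] [Module ℂ H] {π : O →* End ℂ H} (G : Geo π)

lemma ov_iff {g y : O} (h : Commute g y) (ω : G.Ω) : G.ov (G.act y ω) = g ↔ G.ov ω = g := by
  rw [G.ov_act, mul_inv_eq_iff_eq_mul, h.eq, mul_right_inj]

lemma keeps_Φt {g y : O} (h : Commute g y) : Keeps (π y) (G.Φt g) := by
  intro v hv
  have e : G.Φt g ≤ (G.Φt g).comap (π y) := by
    refine iSup_le fun ω => iSup_le fun hω => fun w hw => ?_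
    exact Submodule.mem_iSup_of_mem (G.act y ω) (Submodule.mem_iSup_of_mem ((ov_iff G h ω).2 hω)
      (G.Φ_act y ω w hw))
  exact e hv

/-- the action on the components. -/
def actOn {K : Type} [Group K] (c : K →* O) {g : O} (h : ∀ k, Commute g (c k)) :
    K →* Perm {ω // G.ov ω = g} where
  toFun k := (G.act (c k)).subtypePerm fun ω => ov_iff G (h k) ω
  map_one' := by ext ω; simp
  map_mul' k l := Equiv.ext fun ω => Subtype.ext (by
    change G.act (c (k * l)) ω.1 = G.act (c k) (G.act (c l) ω.1)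
    rw [map_mul, map_mul, Perm.mul_apply])

lemma actOn_val {K : Type} [Group K] (c : K →* O) {g : O} (h : ∀ k, Commute g (c k)) (k : K)
    (ω : {ω // G.ov ω = g}) : (actOn G c h k ω).1 = G.act (c k) ω.1 := rfl

lemma card_actOn {K : Type} [Group K] (c : K →* O) {g : O} (h : ∀ k, Commute g (c k)) (k : K) :
    Nat.card {ω // actOn G c h k ω = ω} = G.fx g (c k) :=
  Nat.card_congr
    { toFun := fun ω => ⟨ω.1.1, ω.1.2, congrArg Subtype.val ω.2⟩
      invFun := fun ω => ⟨⟨ω.1, ω.2.1⟩, Subtype.ext ω.2.2⟩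
      left_inv := fun _ => rfl
      right_inv := fun _ => rfl }

end geo

section main
variable {ι H : Type} [Fintype ι] [DecidableEq ι] [AddCommGroup H] [Module ℂ H]
  [FiniteDimensional ℂ H] {r : Rep ι H} {s : ι → ι → End ℂ H}

omit [Fintype ι] [FiniteDimensional ℂ H] in
lemma ep_Z0 (a b : ι) {v : H} (hv : v ∈ Z0 r) : r (ep a) v = r (ep b) v := by
  have e : r (ep a * ep b) v = v := by
    have := (Submodule.mem_iInf _).1 ((Submodule.mem_iInf _).1 hv a) b
    simpa using End.mem_eigenspace_iff.1 this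
  calc r (ep a) v = r (ep a) (r (ep a * ep b) v) := by rw [e]
    _ = r (ep b) v := by rw [← Module.End.mul_apply, ← map_mul, ← mul_assoc, ep_sq, one_mul]

lemma finrank_Za (h0 : F0 r s) (a b : ι) : finrank ℂ (Za r a) = finrank ℂ (Za r b) := by
  have le : ∀ a b : ι, finrank ℂ (Za r a) ≤ finrank ℂ (Za r b) := fun a b => by
    have e : r (pm (swap a b)) * r (pm (swap a b)) = 1 := by
      rw [← map_mul, ← map_mul, swap_mul_self, map_one, map_one]
    rw [← finrank_map_unit (Q := Za r a) e]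
    refine Submodule.finrank_mono ?_
    rintro _ ⟨v, hv, rfl⟩
    have := h0.2.2.2.2.2.2.2.2.1 (swap a b) a v hv
    rwa [swap_apply_left] at this
  exact le_antisymm (le a b) (le b a)

lemma trace_del (h0 : F0 r s) (a₀ : ι) {σ : Perm ι} (hσ : Perm.sign σ = 1) :
    LinearMap.trace ℂ H (r (pm σ * epJ univ)) =
      trOn (r (pm σ)) (Z0 r) - finrank ℂ (Za r a₀) * Nat.card {a // σ a = a} := by
  classical
  obtain ⟨i1, i2, i3, i4, -, -, -, -, i9, i10⟩ := id h0
  have cm : Commute (pm σ) (epJ (univ : Finset ι)) := by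
    have := pm_epJ σ (univ : Finset ι)
    rwa [Finset.map_univ_equiv] at this
  have k1 : Keeps (r (pm σ * epJ univ)) (Z0 r) := by
    rw [← i3]
    exact keeps_eig ((cm.mul_left (Commute.refl _)).map r) 1
  have k2 : Keeps (r (pm σ * epJ univ)) (⨆ a, Za r a) := by
    rw [← i4]
    exact keeps_eig ((cm.mul_left (Commute.refl _)).map r) (-1)
  have k3 : Keeps (r (pm σ)) (⨆ a, Za r a) := by
    rw [← i4]
    exact keeps_eig (cm.map r) (-1)
  have d : Disjoint (Z0 r) (⨆ a, Za r a) := by
    refine (i1 none).mono_right (iSup_le fun a => ?_)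
    exact le_iSup₂_of_le (f := fun (j : Option ι) (_ : j ≠ none) => j.elim (Z0 r) (Za r))
      (some a) (by simp) le_rfl
  have d2 : iSupIndep (Za r) := i1.comp (Option.some_injective ι)
  rw [← trOn_top, ← i2, trOn_sup k1 k2 d]
  have e1 : trOn (r (pm σ * epJ univ)) (Z0 r) = trOn (r (pm σ)) (Z0 r) := by
    refine trOn_congr fun v hv => ?_
    rw [← i3, End.mem_eigenspace_iff, one_smul] at hv
    rw [map_mul, Module.End.mul_apply, hv]
  have e2 : trOn (r (pm σ * epJ univ)) (⨆ a, Za r a) =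
      trOn ((-1 : ℂ) • r (pm σ)) (⨆ a, Za r a) := by
    refine trOn_congr fun v hv => ?_
    rw [← i4, End.mem_eigenspace_iff] at hv
    rw [map_mul, Module.End.mul_apply, hv, map_smul, LinearMap.smul_apply]
  have e3 : ∀ a ∈ univ.filter (fun a => σ a = a),
      trOn (r (pm σ)) (Za r a) = finrank ℂ (Za r a₀) := fun a ha => by
    rw [trOn_scalar (c := 1) fun v hv => by
      rw [one_smul]; exact i10 σ a hσ (mem_filter.1 ha).2 v hv, one_mul, finrank_Za h0 a a₀]
  have e4 : trOn (r (pm σ)) (⨆ a, Za r a) = ∑ a with σ a = a, trOn (r (pm σ)) (Za r a) := by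
    rw [trOn_iSup d2 σ (i9 σ)]
    exact Finset.sum_congr (by ext a; simp) fun _ _ => rfl
  rw [e1, e2, trOn_smul k3, e4, Finset.sum_congr rfl e3, Finset.sum_const, Nat.card_eq_fintype_card,
    Fintype.card_subtype, nsmul_eq_mul]
  ring

end main

theorem sf3 (h1 : SGeoL) (h2 : SAct) : SF3 := by
  intro ι O H _ _ _ _ _ _ π G ψ s hψ hF h0 hs
  obtain ⟨g1, g2⟩ := h1 H O π G
  have n12 : 12 ≤ Fintype.card ι := hF.1
  obtain ⟨a₀⟩ : Nonempty ι := Fintype.card_pos_iff.1 (by omega)
  have gsq : ψ (epJ univ) ^ 2 = 1 := by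
    rw [pow_two, ← map_mul, epJ_mul, symmDiff_self, Finset.bot_eq_empty, epJ_empty, map_one]
  obtain ⟨fin, -, g3⟩ := g1 _ (isOfFinOrder_iff_pow_eq_one.2 ⟨2, two_pos, gsq⟩)
  have cm : ∀ τ, Commute (ψ (epJ univ)) ((ψ.comp cage) τ) := fun τ => by
    change ψ _ * ψ (cage τ) = ψ (cage τ) * ψ _
    rw [← map_mul, del_cage, map_mul, hψ, one_mul, map_mul]
  have cz : Commute (epJ (univ : Finset ι)) (ep a₀) := by
    rw [← epJ_single]
    change _ * _ = _ * _
    rw [epJ_mul, epJ_mul, symmDiff_comm]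
  have i3 := h0.2.2.1
  have le : G.Φt (ψ (epJ univ)) ≤ Z0 (π.comp ψ) := by
    rw [← i3]
    refine iSup_le fun ω => iSup_le fun hω => fun v hv => ?_
    rw [End.mem_eigenspace_iff, one_smul]
    exact (g3 ω hω).2 v hv
  have ev := md_even (Z := Z0 (π.comp ψ)) (Φ := G.Φt (ψ (epJ univ))) (π.comp (ψ.comp cage))
    (π (ψ (ep a₀))) (by rw [← map_mul, ← map_mul, ep_sq, map_one, map_one])
    (by rw [← i3]; exact keeps_eig (cz.symm.map (π.comp ψ)) 1) (fun τ => keeps_Φt G (cm τ))
    (fun a v hv => by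
      have p := md_prod (Z := Z0 (π.comp ψ)) (Φ := G.Φt (ψ (epJ univ)))
        ((univ.erase a).toList.map fun b => s b a) (fun f hf => by
          obtain ⟨b, hb, rfl⟩ := List.mem_map.1 hf
          have hb' : b ≠ a := (Finset.mem_erase.1 (Finset.mem_toList.1 hb)).1
          exact ⟨h0.2.2.2.2.2.2.1 b a hb', hs b a hb'⟩)
      have e : (π.comp (ψ.comp cage)) (swap none (some a)) v = π (ψ (ep a₀)) (sig s a v) :=
        (h0.2.2.2.2.2.2.2.1 a v hv).trans (ep_Z0 a a₀ (p.1 v hv))
      rw [e, ← map_sub]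
      exact keeps_Φt G (cz.map ψ) _ (p.2 v hv))
  have act := h2 ι {ω // G.ov ω = ψ (epJ univ)} (actOn G (ψ.comp cage) cm)
    (1 + (finrank ℂ (G.Φt (ψ (epJ univ))) : ℤ) - finrank ℂ (Z0 (π.comp ψ)))
    (finrank ℂ (Za (π.comp ψ) a₀)) (by omega) (fun σ hσ => by
      rw [card_actOn]
      have sg := sign_of_cube hσ
      have y3 : (ψ.comp cage) (optionCongr σ) ^ 3 = 1 := by
        rw [MonoidHom.comp_apply, cage_option, ← map_pow, ← map_pow, hσ, map_one, map_one]
      have l := g2 _ _ 2 3 two_pos three_pos (by decide) gsq y3 (cm _)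
      have t1 := trOn_sub_eq (keeps_Φt G (cm (optionCongr σ))) le
        ((ev (optionCongr σ)).1 (by rw [Equiv.optionCongr_sign, sg]))
      have t2 := trace_del h0 a₀ sg
      rw [MonoidHom.comp_apply, cage_option] at l t1 ⊢
      rw [← map_mul] at l
      change LinearMap.trace ℂ H (π (ψ (pm σ * epJ univ))) = trOn (π (ψ (pm σ))) _ - _ at t2
      have fin : ((G.fx (ψ (epJ univ)) (ψ (pm σ)) : ℤ) : ℂ) =
          ((1 + (finrank ℂ (G.Φt (ψ (epJ univ))) : ℤ) - finrank ℂ (Z0 (π.comp ψ)) +
            (finrank ℂ (Za (π.comp ψ) a₀) : ℤ) * (Nat.card {a // σ a = a} : ℤ) : ℤ) : ℂ) := by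
        push_cast
        linear_combination -l - t1 - t2
      exact_mod_cast fin)
  have dl := Submodule.finrank_mono le
  rcases Nat.eq_zero_or_pos (finrank ℂ (Za (π.comp ψ) a₀)) with z | z
  · exact Or.inl fun a => Submodule.finrank_eq_zero.1 ((finrank_Za h0 a a₀).trans z)
  · obtain ⟨a1, a2⟩ := act
    obtain ⟨lab, hl⟩ := a2 (by omega) (by omega)
    refine Or.inr ⟨fun a => (finrank_Za h0 a a₀).trans (by omega),
      Submodule.eq_of_le_of_finrank_eq le (by omega), fun i => (lab.symm i).1,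
      Subtype.val_injective.comp lab.symm.injective, fun x => ⟨fun hx => ⟨lab ⟨x, hx⟩, by simp⟩, ?_⟩,
      fun σ i => ?_⟩
    · rintro ⟨i, rfl⟩
      exact (lab.symm i).2
    · have e := hl σ (lab.symm i)
      rw [apply_symm_apply, ← eq_symm_apply] at e
      exact congrArg Subtype.val e

end Pool.Agent.MP_3ce0a0_al.H99
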